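import Pool.Agent.W904.PG.UNI
import Pool.Agent.U192.TD.Uni

/-!
Fields generated by a field and several function fields of curves.
-/

set_option autoImplicit false
set_option linter.overlappingInstances false
set_option linter.unusedSectionVars false
set_option maxHeartbeats 4000000

open FF IntermediateField Pool.Agent.W603.LV
open Pool.Agent.W619.PQ (IsUniruled)
open Pool.Agent.W904.PG (acl acl_mono trdeg_le_acl le_acl_of_basis)

namespace Pool.Agent.U192.PY

theorem curve_basis {F : Type} [Field F] [Algebra ℂ F] [IsFF ℂ F] {x : F}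
    (hx : Transcendental ℂ x) : IsTranscendenceBasis ℂ (fun _ : Fin 1 => x) := by
  have h1 : AlgebraicIndependent ℂ (fun _ : Fin 1 => x) :=
    (algebraicIndependent_unique_type_iff).2 hx
  refine h1.isTranscendenceBasis_of_lift_trdeg_le_of_finite ?_
  rw [IsFF.trdeg]
  simp

section

variable {L : Type} [Field L] [Algebra ℂ L]

theorem curve_le (C : IntermediateField ℂ L) [IsFF ℂ C] {x : C} (hx : Transcendental ℂ x)
    {S : Set L} (h : (x : L) ∈ S) : C ≤ acl ℂ S := by
  refine (le_acl_of_basis C _ (curve_basis hx)).trans (acl_mono ?_)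
  rintro _ ⟨_, rfl⟩
  exact h

/-- the transcendence degree of a subfield which is generated up to algebraic extensions by an
algebraically independent family -/
theorem trdeg_gen {κ : Type} [Fintype κ] {z : κ → L} (hz : AlgebraicIndependent ℂ z)
    (M : IntermediateField ℂ L) (hM : ∀ k, z k ∈ M) (hle : M ≤ acl ℂ (Set.range z)) :
    Algebra.trdeg ℂ M = Fintype.card κ := by
  apply le_antisymm
  · refine (trdeg_le_acl _ M hle).trans ?_
    refine Cardinal.mk_range_le.trans ?_
    rw [Cardinal.mk_fintype]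
  · have h1 : AlgebraicIndependent ℂ (fun k => (⟨z k, hM k⟩ : M)) :=
      AlgebraicIndependent.of_comp M.val hz
    have h2 := h1.cardinalMk_le_trdeg
    rwa [Cardinal.mk_fintype] at h2

theorem indep {d r : ℕ} {U : IntermediateField ℂ L} {C : Fin r → IntermediateField ℂ L}
    [∀ i, IsFF ℂ (C i)] (hsup : U ⊔ ⨆ i, C i = ⊤)
    (hL : Algebra.trdeg ℂ L = (d + r : ℕ)) {u : Fin d → U} (hu : IsTranscendenceBasis ℂ u)
    {x : ∀ i, C i} (hx : ∀ i, Transcendental ℂ (x i)) :
    AlgebraicIndependent ℂ (Sum.elim (fun j => (u j : L)) (fun i => (x i : L))) := by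
  obtain ⟨z, hz⟩ : ∃ z : Fin d ⊕ Fin r → L, z = Sum.elim (fun j => (u j : L))
    (fun i => (x i : L)) := ⟨_, rfl⟩
  rw [← hz]
  have h1 : U ⊔ ⨆ i, C i ≤ acl ℂ (Set.range z) := by
    refine sup_le ((le_acl_of_basis U u hu).trans (acl_mono ?_))
      (iSup_le fun i => curve_le (C i) (hx i) ⟨Sum.inr i, by rw [hz]; rfl⟩)
    rintro _ ⟨j, rfl⟩
    exact ⟨Sum.inl j, by rw [hz]; rfl⟩
  rw [hsup] at h1
  have h2 : Algebra.IsAlgebraic (Algebra.adjoin ℂ (Set.range z)) L :=
    ⟨fun w => h1 (show w ∈ (⊤ : IntermediateField ℂ L) from trivial)⟩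
  have h3 : IsTranscendenceBasis ℂ z := by
    refine Algebra.IsAlgebraic.isTranscendenceBasis_of_lift_le_trdeg_of_finite ℂ _ ?_
    rw [hL]
    simp
  exact h3.1

theorem trdeg_curves {d r : ℕ} {U : IntermediateField ℂ L} {C : Fin r → IntermediateField ℂ L}
    [∀ i, IsFF ℂ (C i)] (hsup : U ⊔ ⨆ i, C i = ⊤) (hU : Algebra.trdeg ℂ U = d)
    (hL : Algebra.trdeg ℂ L = (d + r : ℕ)) :
    Algebra.trdeg ℂ (⨆ i, C i : IntermediateField ℂ L) = r := by
  obtain ⟨u, hu⟩ := Pool.Agent.W636.PG.exists_basis ℂ U d hU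
  choose x hx using fun i => IsFF.exists_transcendental (k := ℂ) (K := C i)
  have h1 := (indep hsup hL hu hx).comp Sum.inr Sum.inr_injective
  have h2 := trdeg_gen (z := fun i => (x i : L)) h1 (⨆ i, C i)
    (fun i => le_iSup C i (x i).2) (iSup_le fun i => curve_le (C i) (hx i) ⟨i, rfl⟩)
  rwa [Fintype.card_fin] at h2

theorem indep_curves {d r : ℕ} {U : IntermediateField ℂ L} {C : Fin r → IntermediateField ℂ L}
    [∀ i, IsFF ℂ (C i)] (hsup : U ⊔ ⨆ i, C i = ⊤) (hU : Algebra.trdeg ℂ U = d)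
    (hL : Algebra.trdeg ℂ L = (d + r : ℕ)) (x : ∀ i, C i) (hx : ∀ i, Transcendental ℂ (x i)) :
    AlgebraicIndependent ℂ (fun i => inclusion (le_iSup C i) (x i)) := by
  obtain ⟨u, hu⟩ := Pool.Agent.W636.PG.exists_basis ℂ U d hU
  have h1 := (indep hsup hL hu hx).comp Sum.inr Sum.inr_injective
  exact AlgebraicIndependent.of_comp (⨆ i, C i : IntermediateField ℂ L).val h1

/-- the field generated by `U` and all curves but the `i`-th -/
noncomputable def Oth (U : IntermediateField ℂ L) {r : ℕ} (C : Fin r → IntermediateField ℂ L)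
    (i : Fin r) : IntermediateField ℂ L := U ⊔ ⨆ j : {j : Fin r // j ≠ i}, C j

theorem le_oth (U : IntermediateField ℂ L) {r : ℕ} (C : Fin r → IntermediateField ℂ L)
    {i j : Fin r} (h : j ≠ i) : C j ≤ Oth U C i :=
  (le_iSup (fun j : {j : Fin r // j ≠ i} => C j) ⟨j, h⟩).trans le_sup_right

theorem oth_sup {U : IntermediateField ℂ L} {r : ℕ} {C : Fin r → IntermediateField ℂ L}
    (hsup : U ⊔ ⨆ i, C i = ⊤) (i : Fin r) : Oth U C i ⊔ C i = ⊤ := by
  rw [eq_top_iff, ← hsup]
  refine sup_le (le_sup_left.trans (le_sup_left : Oth U C i ≤ _)) (iSup_le fun j => ?_)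
  by_cases h : j = i
  · rw [h]
    exact le_sup_right
  · exact (le_oth U C h).trans le_sup_left

theorem trdeg_oth {d r : ℕ} {U : IntermediateField ℂ L} {C : Fin (r + 1) → IntermediateField ℂ L}
    [∀ i, IsFF ℂ (C i)] (hsup : U ⊔ ⨆ i, C i = ⊤) (hU : Algebra.trdeg ℂ U = d)
    (hL : Algebra.trdeg ℂ L = (d + (r + 1) : ℕ)) (i : Fin (r + 1)) :
    Algebra.trdeg ℂ (Oth U C i) = (d + r : ℕ) := by
  obtain ⟨u, hu⟩ := Pool.Agent.W636.PG.exists_basis ℂ U d hU
  choose x hx using fun i => IsFF.exists_transcendental (k := ℂ) (K := C i)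
  obtain ⟨f, hf⟩ : ∃ f : Fin d ⊕ {j : Fin (r + 1) // j ≠ i} → Fin d ⊕ Fin (r + 1),
    f = Sum.map id Subtype.val := ⟨_, rfl⟩
  have hfi : Function.Injective f := by
    rw [hf]
    exact Sum.map_injective.2 ⟨Function.injective_id, Subtype.val_injective⟩
  have h1 := (indep hsup hL hu hx).comp f hfi
  have h2 := trdeg_gen h1 (Oth U C i) (fun k => ?_) ?_
  · rw [h2, Fintype.card_sum, Fintype.card_fin, Fintype.card_subtype_compl, Fintype.card_fin,
      Fintype.card_subtype_eq, Nat.add_sub_cancel]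
  · rcases k with k | k
    · rw [hf]
      exact (le_sup_left : U ≤ _) (u k).2
    · rw [hf]
      exact le_oth U C k.2 (x k).2
  · refine sup_le ((le_acl_of_basis U u hu).trans (acl_mono ?_))
      (iSup_le fun j => curve_le (C j) (hx j) ⟨Sum.inr j, by rw [hf]; rfl⟩)
    rintro _ ⟨j, rfl⟩
    exact ⟨Sum.inl j, by rw [hf]; rfl⟩

/-- if one of the curves is rational, then the variety is uniruled -/
theorem uniruled_of_rational [Algebra.EssFiniteType ℂ L] {d r : ℕ} {U : IntermediateField ℂ L}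
    {C : Fin (r + 1) → IntermediateField ℂ L}
    [∀ i, IsFF ℂ (C i)] (hsup : U ⊔ ⨆ i, C i = ⊤) (hU : Algebra.trdeg ℂ U = d)
    (hL : Algebra.trdeg ℂ L = (d + (r + 1) : ℕ)) (i : Fin (r + 1)) {t : C i} (ht : ℂ⟮t⟯ = ⊤) :
    IsUniruled ℂ L (d + (r + 1)) := by
  have hM := trdeg_oth hsup hU hL i
  have hgen : IntermediateField.adjoin (Oth U C i) ({(t : L)} : Set L) = ⊤ := by
    have h1 : Oth U C i ⊔ C i ≤
        (IntermediateField.adjoin (Oth U C i) ({(t : L)} : Set L)).restrictScalars ℂ := by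
      refine sup_le (fun z hz => ?_) fun z hz => ?_
      · exact (IntermediateField.adjoin (Oth U C i) ({(t : L)} : Set L)).algebraMap_mem ⟨z, hz⟩
      · have h2 : (⟨z, hz⟩ : C i) ∈ ℂ⟮t⟯ := by rw [ht]; trivial
        have h3 : ℂ⟮t⟯ ≤ ((IntermediateField.adjoin (Oth U C i)
            ({(t : L)} : Set L)).restrictScalars ℂ).comap (C i).val := by
          rw [adjoin_simple_le_iff]
          exact IntermediateField.subset_adjoin _ _ rfl
        exact h3 h2
    rw [oth_sup hsup] at h1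
    rw [eq_top_iff]
    intro z _
    exact h1 (show z ∈ (⊤ : IntermediateField ℂ L) from trivial)
  have htr : Transcendental (Oth U C i) (t : L) := by
    intro halg
    have h1 : Algebra.IsAlgebraic (Oth U C i) (IntermediateField.adjoin (Oth U C i)
      ({(t : L)} : Set L)) := isAlgebraic_adjoin_simple halg.isIntegral
    rw [hgen] at h1
    have h2 : Algebra.IsAlgebraic (Oth U C i) L :=
      (IntermediateField.topEquiv (F := Oth U C i) (E := L)).isAlgebraic_iff.1 h1
    have h3 := trdeg_add_eq ℂ (Oth U C i) (A := L)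
    have h4 : Algebra.trdeg (Oth U C i) L = 0 := trdeg_eq_zero_iff.2 h2
    rw [hM, h4, add_zero, hL] at h3
    have h5 : d + r = d + (r + 1) := by exact_mod_cast h3
    omega
  have hi : AlgebraicIndependent (Oth U C i) (fun _ : Fin 1 => (t : L)) :=
    (algebraicIndependent_unique_type_iff).2 htr
  have hg : IntermediateField.adjoin (Oth U C i) (Set.range fun _ : Fin 1 => (t : L)) = ⊤ := by
    rw [Set.range_const]
    exact hgen
  exact Pool.Agent.U192.TD.uniruled_rational (Oth U C i) (k := 0) hM hi hg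

end

end Pool.Agent.U192.PY
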